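import Pool.Agent.helper10.OM.Spec

set_option autoImplicit false

namespace Pool.Agent.OM

open Finset Real

theorem EEB_eq (t : ℝ) : ee t = Complex.exp (Complex.I * ((2 * π * t : ℝ) : ℂ)) := by
  unfold ee
  congr 1
  push_cast
  ring

theorem EEB_norm (t : ℝ) : ‖ee t‖ = 1 := by
  unfold ee
  rw [Complex.norm_exp]
  simp

theorem EEB_add (s t : ℝ) : ee (s + t) = ee s * ee t := by
  unfold ee
  rw [← Complex.exp_add]
  congr 1
  push_cast
  ring

theorem EEB_int (n : ℤ) : ee n = 1 := by
  unfold ee
  rw [Complex.exp_eq_one_iff]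
  exact ⟨n, by push_cast; ring⟩

theorem EEB_sub (t : ℝ) : ‖1 - ee t‖ = 2 * |Real.sin (π * t)| := by
  rw [norm_sub_rev, EEB_eq, Complex.norm_exp_I_mul_ofReal_sub_one, norm_mul, Real.norm_eq_abs, Real.norm_eq_abs,
    abs_of_pos (by norm_num : (0 : ℝ) < 2)]
  congr 3
  ring

theorem EEB : EEB_stmt := by
  refine ⟨EEB_norm, EEB_add, EEB_int, ?_, ?_⟩
  · intro t
    rw [EEB_sub]
    have h := Real.abs_sin_le_abs (x := π * t)
    rw [abs_mul, abs_of_pos Real.pi_pos] at h
    linarith
  · intro t ht
    rw [EEB_sub]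
    have h1 : |Real.sin (π * t)| = Real.sin (π * |t|) := by
      rcases le_total 0 t with h | h
      · rw [abs_of_nonneg h, abs_of_nonneg]
        apply Real.sin_nonneg_of_nonneg_of_le_pi (by positivity)
        rw [abs_of_nonneg h] at ht
        nlinarith [Real.pi_pos]
      · rw [abs_of_nonpos h]
        have h2 : Real.sin (π * -t) = - Real.sin (π * t) := by
          rw [← Real.sin_neg]; congr 1; ring
        rw [h2, abs_of_nonpos]
        have h3 : 0 ≤ Real.sin (π * -t) := by
          apply Real.sin_nonneg_of_nonneg_of_le_pi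
          · exact mul_nonneg Real.pi_pos.le (by linarith)
          · rw [abs_of_nonpos h] at ht
            nlinarith [Real.pi_pos]
        linarith
    rw [h1]
    have h4 := Real.mul_le_sin (x := π * |t|) (by positivity) (by nlinarith [Real.pi_pos])
    have h5 : 2 / π * (π * |t|) = 2 * |t| := by
      field_simp
    rw [h5] at h4
    linarith

end Pool.Agent.OM
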