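import Pool.Agent.helper10.OM.Spec

set_option autoImplicit false

namespace Pool.Agent.OM

open Finset Real

theorem GEO_pow (hEEB : EEB_stmt) (s : ℝ) (k : ℕ) : ee (s * k) = ee s ^ k := by
  induction k with
  | zero =>
    have := hEEB.2.2.1 0
    simpa using this
  | succ k ih =>
    have h : s * ((k + 1 : ℕ) : ℝ) = s * k + s := by push_cast; ring
    rw [h, hEEB.2.1, ih, pow_succ]

theorem GEO_le (hEEB : EEB_stmt) (D : ℕ) (t : ℝ) : ‖∑ d ∈ range D, ee (t * d)‖ ≤ D := by
  refine (norm_sum_le _ _).trans ?_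
  simp [hEEB.1]

theorem GEO (hEEB : EEB_stmt) : GEO_stmt := by
  intro D t
  refine ⟨by unfold FD; positivity, ?_, ?_⟩
  · unfold FD
    apply pow_le_one₀ (by positivity)
    rcases Nat.eq_zero_or_pos D with h | h
    · subst h; simp
    · rw [div_le_one (by exact_mod_cast h)]
      exact GEO_le hEEB D t
  · intro ρ hρ hD hN
    have hD0 : (0 : ℝ) < D := by exact_mod_cast hD
    set s : ℝ := t - round t with hs
    have hs1 : |s| ≤ 1 / 2 := abs_sub_round t
    have hs2 : ρ < |s| := by
      by_contra h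
      exact hN ⟨round t, not_lt.1 h⟩
    have hs3 : ∀ d : ℕ, ee (t * d) = ee s ^ d := by
      intro d
      rw [← GEO_pow hEEB]
      have h1 : t * d = s * d + ((round t * d : ℤ) : ℝ) := by
        rw [hs]; push_cast; ring
      rw [h1, hEEB.2.1, hEEB.2.2.1, mul_one]
    have hne : ee s ≠ 1 := by
      intro h
      have h1 := hEEB.2.2.2.2 s hs1
      rw [h, sub_self, norm_zero] at h1
      linarith [abs_nonneg s]
    have h5 : ‖∑ d ∈ range D, ee (t * d)‖ ≤ 1 / (2 * ρ) := by
      rw [sum_congr rfl fun d _ => hs3 d, geom_sum_eq hne, norm_div]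
      have h6 : ‖ee s ^ D - 1‖ ≤ 2 := by
        refine (norm_sub_le _ _).trans ?_
        rw [norm_pow, hEEB.1, one_pow, norm_one]
        norm_num
      have h7 : 4 * ρ ≤ ‖ee s - 1‖ := by
        rw [norm_sub_rev]
        have := hEEB.2.2.2.2 s hs1
        linarith
      rw [div_le_div_iff₀ (by linarith) (by positivity)]
      nlinarith
    have h8 : ‖∑ d ∈ range D, ee (t * d)‖ / D ≤ 1 / (2 * D * ρ) := by
      rw [div_le_iff₀ hD0]
      refine h5.trans (le_of_eq ?_)
      field_simp
    unfold FD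
    calc (‖∑ d ∈ range D, ee (t * d)‖ / D) ^ 2 ≤ (1 / (2 * D * ρ)) ^ 2 := by
          apply pow_le_pow_left₀ (by positivity) h8
      _ = 1 / (2 * D * ρ) ^ 2 := by rw [div_pow, one_pow]

end Pool.Agent.OM
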