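import Pool.Agent.helper10.OM.Spec

set_option autoImplicit false

namespace Pool.Agent.OM

open Finset Real

theorem ORT_pow (hEEB : EEB_stmt) (s : ℝ) (k : ℕ) : ee (s * k) = ee s ^ k := by
  induction k with
  | zero =>
    have := hEEB.2.2.1 0
    simpa using this
  | succ k ih =>
    have h : s * ((k + 1 : ℕ) : ℝ) = s * k + s := by push_cast; ring
    rw [h, hEEB.2.1, ih, pow_succ]

theorem ORT_one {s : ℝ} (h : ee s = 1) : ∃ n : ℤ, s = n := by
  unfold ee at h
  rw [Complex.exp_eq_one_iff] at h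
  obtain ⟨n, hn⟩ := h
  refine ⟨n, ?_⟩
  have h2 : (2 * (π : ℂ) * Complex.I) ≠ 0 := Complex.two_pi_I_ne_zero
  have h3 : (s : ℂ) = n := by
    apply mul_right_cancel₀ h2
    rw [← hn]; ring
  exact_mod_cast h3

theorem ORT (hEEB : EEB_stmt) : ORT_stmt := by
  intro Q hQ z
  have hQ0 : (Q : ℝ) ≠ 0 := by
    have : (0 : ℝ) < Q := by exact_mod_cast hQ
    exact this.ne'
  have h1 : ∀ k ∈ range Q, ee ((k : ℝ) / Q * z) = ee ((z : ℝ) / Q) ^ k := by
    intro k _
    rw [← ORT_pow hEEB]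
    congr 1
    field_simp
  rw [sum_congr rfl h1]
  split_ifs with h
  · obtain ⟨c, rfl⟩ := h
    have h2 : ee (((Q : ℤ) * c : ℤ) / (Q : ℝ)) = 1 := by
      have h3 : ((((Q : ℤ) * c : ℤ) : ℝ) / (Q : ℝ)) = (c : ℤ) := by
        push_cast
        field_simp
      rw [h3]
      exact hEEB.2.2.1 c
    rw [h2]
    simp
  · have h2 : ee ((z : ℝ) / Q) ≠ 1 := by
      intro h3
      obtain ⟨n, hn⟩ := ORT_one h3
      apply h
      refine ⟨n, ?_⟩
      have h4 : (z : ℝ) = Q * n := by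
        field_simp at hn
        linarith
      exact_mod_cast h4
    have h3 : ee ((z : ℝ) / Q) ^ Q = 1 := by
      rw [← ORT_pow hEEB]
      have h4 : (z : ℝ) / Q * (Q : ℕ) = (z : ℤ) := by
        field_simp
      rw [h4]
      exact hEEB.2.2.1 z
    rw [geom_sum_eq h2, h3]
    simp

end Pool.Agent.OM
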