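import Pool.Agent.helper10.OM.Spec

set_option autoImplicit false

namespace Pool.Agent.OM

open Finset Real

theorem PA1_conj (t : ℝ) : (starRingEnd ℂ) (ee t) = ee (-t) := by
  unfold ee
  rw [← Complex.exp_conj]
  congr 1
  have h : 2 * (π : ℂ) * (t : ℂ) * Complex.I = ((2 * π * t : ℝ) : ℂ) * Complex.I := by
    push_cast
    ring
  rw [h, map_mul, Complex.conj_ofReal, Complex.conj_I]
  push_cast
  ring

theorem PA1 (hEEB : EEB_stmt) (hORT : ORT_stmt) : PA1_stmt := by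
  intro Q hQ X hX f
  have key : (∑ k ∈ range Q, (∑ x ∈ X, f x * ee ((k : ℝ) / Q * x)) *
      (starRingEnd ℂ) (∑ x ∈ X, f x * ee ((k : ℝ) / Q * x))) = (Q : ℂ) * ∑ x ∈ X, f x * (starRingEnd ℂ) (f x) := by
    have h1 : ∀ k ∈ range Q, (∑ x ∈ X, f x * ee ((k : ℝ) / Q * x)) *
        (starRingEnd ℂ) (∑ x ∈ X, f x * ee ((k : ℝ) / Q * x)) =
        ∑ x ∈ X, ∑ x' ∈ X, f x * (starRingEnd ℂ) (f x') * ee ((k : ℝ) / Q * ((x - x' : ℤ) : ℝ)) := by
      intro k _
      rw [map_sum, sum_mul_sum]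
      refine sum_congr rfl fun x _ => sum_congr rfl fun x' _ => ?_
      rw [map_mul, PA1_conj]
      have h2 : (k : ℝ) / Q * ((x - x' : ℤ) : ℝ) = (k : ℝ) / Q * x + -((k : ℝ) / Q * x') := by
        push_cast
        ring
      rw [h2, hEEB.2.1]
      ring
    rw [sum_congr rfl h1, sum_comm, mul_sum]
    refine sum_congr rfl fun x hx => ?_
    rw [sum_comm]
    have h3 : ∀ x' ∈ X, (∑ k ∈ range Q, f x * (starRingEnd ℂ) (f x') * ee ((k : ℝ) / Q * ((x - x' : ℤ) : ℝ))) =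
        if x = x' then (Q : ℂ) * (f x * (starRingEnd ℂ) (f x)) else 0 := by
      intro x' hx'
      rw [← mul_sum, hORT Q hQ]
      by_cases h : x = x'
      · subst h
        simp only [sub_self, dvd_zero, if_true]
        ring
      · rw [if_neg h, if_neg, mul_zero]
        intro h4
        exact h (hX x hx x' hx' h4)
    rw [sum_congr rfl h3, sum_ite_eq, if_pos hx]
  have h5 : ∀ w : ℂ, w * (starRingEnd ℂ) w = ((‖w‖ ^ 2 : ℝ) : ℂ) := by
    intro w
    rw [Complex.mul_conj, Complex.normSq_eq_norm_sq]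
  simp only [h5] at key
  exact_mod_cast key

end Pool.Agent.OM
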