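import Pool.Agent.helper10.OM.Spec

set_option autoImplicit false

namespace Pool.Agent.OM

open Finset Real

theorem PA2 (hPA1 : PA1_stmt) : PA2_stmt := by
  intro Q hQ X hX G
  have h1 : ∀ k ∈ range Q, ∑ l ∈ range Q, ‖∑ x ∈ X, ∑ y ∈ X, G x y * (ee ((k : ℝ) / Q * x) * ee ((l : ℝ) / Q * y))‖ ^ 2 =
      (Q : ℝ) * ∑ y ∈ X, ‖∑ x ∈ X, G x y * ee ((k : ℝ) / Q * x)‖ ^ 2 := by
    intro k _
    rw [← hPA1 Q hQ X hX (fun y => ∑ x ∈ X, G x y * ee ((k : ℝ) / Q * x))]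
    refine sum_congr rfl fun l _ => ?_
    congr 2
    rw [sum_comm]
    refine sum_congr rfl fun y _ => ?_
    rw [sum_mul]
    refine sum_congr rfl fun x _ => ?_
    ring
  rw [sum_congr rfl h1, ← mul_sum, sum_comm]
  have h2 : ∀ y ∈ X, ∑ k ∈ range Q, ‖∑ x ∈ X, G x y * ee ((k : ℝ) / Q * x)‖ ^ 2 = (Q : ℝ) * ∑ x ∈ X, ‖G x y‖ ^ 2 := by
    intro y _
    exact hPA1 Q hQ X hX (fun x => G x y)
  rw [sum_congr rfl h2, ← mul_sum, sum_comm]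
  ring

end Pool.Agent.OM
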